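import Mathlib
import Pool.Agent.Lib.MP_b0d2bf_gt.YCor

set_option autoImplicit false

/-!
The even dual Minkowski problem for `q > n`: a topological existence theorem. The problem is
solvable whenever no invariant subspace has exactly the critical mass and the simplicial complex
of the minimal heavy subspaces is not contractible.
-/

namespace Pool.Agent.Results.MP_b0d2bf_gt.HeavyComplex

open MeasureTheory Metric Set Pool.Agent.Lib.MP_b0d2bf_gt

/-- linear isometries of `ℝⁿ` -/
abbrev Iso (n : ℕ) : Type := Eu n ≃ₗᵢ[ℝ] Eu n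

/-- groups of linear isometries of `ℝⁿ` -/
abbrev Grp (n : ℕ) : Type := Subgroup (Iso n)

/-- Borel measures on the unit sphere -/
abbrev Msr (n : ℕ) : Type := Measure (Sph n)

/-- linear subspaces of `ℝⁿ` -/
abbrev Sub (n : ℕ) : Type := Submodule ℝ (Eu n)

variable {n : ℕ}

/-- `g` belongs to `G` -/
def Mem (G : Grp n) (g : Iso n) : Prop := g ∈ G

/-- `Z` is contained in `W` -/
def Le (Z W : Sub n) : Prop := Z ≤ W

/-- `L` is not the whole space -/
def Proper (L : Sub n) : Prop := L ≠ ⊤

/-- the mass `μ(L ∩ S)` of a subspace -/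
noncomputable def massOf (μ : Msr n) (L : Sub n) : ℝ := μ.real {v | (v : Eu n) ∈ L}

/-- the critical mass `(dim L / q) μ(S)` of `L` -/
noncomputable def critMass (q : ℝ) (μ : Msr n) (L : Sub n) : ℝ :=
  Module.finrank ℝ L / q * μ.real univ

/-- `G` is finite and contains `-1` -/
def IsFiniteEven (G : Grp n) : Prop := Finite G ∧ Mem G (LinearIsometryEquiv.neg ℝ)

/-- `μ` is a nonzero finite `G`-invariant Borel measure on the unit sphere -/
def IsInvMeasure (G : Grp n) (μ : Msr n) : Prop :=
  IsFiniteMeasure μ ∧ μ ≠ 0 ∧ ∀ g : Iso n, Mem G g → Measure.map (actS g) μ = μ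

/-- the set `A` is mapped into itself by all members of `G` -/
def IsInv (G : Grp n) (A : Set (Eu n)) : Prop := ∀ g : Iso n, Mem G g → ∀ x ∈ A, g x ∈ A

/-- `K` is a convex body whose `q`-th dual curvature measure is `μ` (the inverse radial Gauss
images are null-measurable) -/
def HasDualCurv (q : ℝ) (K : Set (Eu n)) (μ : Msr n) : Prop :=
  IsSymBody K ∧ ∀ ω : Set (Sph n), MeasurableSet ω →
    NullMeasurableSet (invGauss K ω) ((volume : Measure (Eu n)).toSphere) ∧
    dualCurv q K ω = μ ω

/-- `μ` is the `q`-th dual curvature measure of a `G`-invariant origin-symmetric convex body -/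
def Solvable (G : Grp n) (q : ℝ) (μ : Msr n) : Prop :=
  ∃ K : Set (Eu n), IsInv G K ∧ HasDualCurv q K μ

/-- `L` is a `G`-invariant linear subspace, different from `0` and from the whole space -/
def IsInvSub (G : Grp n) (L : Sub n) : Prop := IsInv G (L : Set (Eu n)) ∧ L ≠ ⊥ ∧ Proper L

/-- all invariant subspaces are light -/
def AllLight (G : Grp n) (q : ℝ) (μ : Msr n) : Prop :=
  ∀ L : Sub n, IsInvSub G L → massOf μ L < critMass q μ L

/-- there are no critical subspaces -/
def NoCritical (G : Grp n) (q : ℝ) (μ : Msr n) : Prop :=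
  ∀ L : Sub n, IsInvSub G L → massOf μ L ≠ critMass q μ L

/-- `L` is heavy: invariant, proper, nonzero, with `μ(L ∩ S) > (dim L / q) μ(S)` -/
def IsHeavy (G : Grp n) (q : ℝ) (μ : Msr n) (L : Sub n) : Prop :=
  IsInvSub G L ∧ critMass q μ L < massOf μ L

/-- minimal heavy subspaces -/
def IsMinHeavy (G : Grp n) (q : ℝ) (μ : Msr n) (L : Sub n) : Prop :=
  IsHeavy G q μ L ∧ ∀ W : Sub n, IsHeavy G q μ W → Le W L → W = L

/-- The (half-open) cone over the simplicial complex whose vertices are the minimal heavy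
subspaces and whose simplices are the sets of minimal heavy subspaces which do not span the whole
space (that is, which are contained in a proper subspace). It is homotopy equivalent to this
complex. -/
def heavyCone (G : Grp n) (q : ℝ) (μ : Msr n) : Set ({Z : Sub n // IsMinHeavy G q μ Z} → ℝ) :=
  {x | (∀ Z, 0 ≤ x Z) ∧ (∃ Z, 0 < x Z) ∧ ∃ L : Sub n, Proper L ∧ ∀ Z, 0 < x Z → Le Z.1 L}

/-- the minimal heavy subspaces form two nonempty classes such that any member of the first class
and any member of the second class together span the whole space -/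
def TwoClasses (G : Grp n) (q : ℝ) (μ : Msr n) : Prop :=
  ∃ A B : Set (Sub n), (∀ Z : Sub n, IsMinHeavy G q μ Z ↔ Z ∈ A ∨ Z ∈ B) ∧
    A.Nonempty ∧ B.Nonempty ∧
    ∀ Z W L : Sub n, Z ∈ A → W ∈ B → Le Z L → Le W L → ¬ Proper L

/-- the whole space is the direct sum of irreducible heavy subspaces -/
def HeavySum (G : Grp n) (q : ℝ) (μ : Msr n) : Prop :=
  ∃ (m : ℕ) (V : Fin m → Sub n),
    (∀ i, IsHeavy G q μ (V i) ∧ ∀ W : Sub n, IsInvSub G W → Le W (V i) → W = V i) ∧
    DirectSum.IsInternal V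

/-- Let `n ≥ 2`, `q > n`, `G` a finite group of linear isometries containing `-1` (for example
`G = {1, -1}`) and `μ` a nonzero finite `G`-invariant Borel measure on the unit sphere.
(1) If all invariant subspaces are light, `μ` is a dual curvature measure.
(2) If there are no critical subspaces and the complex of minimal heavy subspaces is not
contractible then `μ` is a dual curvature measure. This is the case for example if (3) the minimal
heavy subspaces split into two nonempty classes such that any member of the first class and any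
member of the second class span the whole space, or (4) the whole space is the direct sum of
irreducible heavy subspaces. -/
theorem result : ∀ n : ℕ, 2 ≤ n → ∀ q : ℝ, (n : ℝ) < q → ∀ G : Grp n, IsFiniteEven G →
    ∀ μ : Msr n, IsInvMeasure G μ → (AllLight G q μ → Solvable G q μ) ∧
    (NoCritical G q μ → (¬ ContractibleSpace (heavyCone G q μ) → Solvable G q μ) ∧
      (TwoClasses G q μ → Solvable G q μ) ∧ (HeavySum G q μ → Solvable G q μ)) := by
  rintro n hn q hq G ⟨hG, hneg⟩ μ ⟨hμf, hμ0, hμG⟩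
  have : NeZero n := ⟨by omega⟩
  have hn' : (0:ℝ) < n := by exact_mod_cast (show 0 < n by omega)
  have hq0 : 0 < q := hn'.trans hq
  have huniv : μ univ ≠ 0 := fun h => hμ0 (Measure.measure_univ_eq_zero.1 h)
  have hm0 : 0 < μ.real univ := ENNReal.toReal_pos huniv (measure_ne_top _ _)
  have hν : IsProbabilityMeasure ((μ univ)⁻¹ • μ) := by
    constructor
    rw [Measure.smul_apply, smul_eq_mul, ENNReal.inv_mul_cancel huniv (measure_ne_top _ _)]
  set ν : Measure (Sph n) := (μ univ)⁻¹ • μ with hνdef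
  have hνG : MInv G ν := by
    intro g hg
    rw [hνdef, Measure.map_smul, hμG g hg]
  have hmass : ∀ L : Submodule ℝ (Eu n), mass ν L = massOf μ L / μ.real univ := by
    intro L
    show ν.real _ = _
    rw [hνdef, measureReal_ennreal_smul_apply, ENNReal.toReal_inv, div_eq_inv_mul]
    rfl
  have hsolve : (∃ g : Sph n → ℝ, Bd G g ∧ MM q g = ENNReal.ofReal (II q g) • ν) →
      Solvable G q μ := by
    rintro ⟨g, hB, hM⟩
    obtain ⟨K, h1, h2, h3⟩ := body_of_MM hq μ hμ0 hB hM
    exact ⟨K, h2, h1, h3⟩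
  have hHeavy : Heavy G q ν = IsHeavy G q μ := by
    funext L
    apply propext
    unfold Heavy IsHeavy
    rw [hmass, lt_div_iff₀ hm0]
    exact ⟨fun h => ⟨⟨h.1, h.2.1, h.2.2.1⟩, h.2.2.2⟩, fun h => ⟨h.1.1, h.1.2.1, h.1.2.2, h.2⟩⟩
  have hMin : MinHeavy G q ν = IsMinHeavy G q μ := by
    funext L
    unfold MinHeavy IsMinHeavy Le
    rw [hHeavy]
  have hlight : AllLight G q μ → Solvable G q μ := by
    intro h
    refine hsolve (exists_light hneg hq ν hνG fun L h1 h2 h3 => ?_)
    rw [hmass, div_lt_iff₀ hm0]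
    exact h L ⟨h1, h2, h3⟩
  refine ⟨hlight, fun hnd => ?_⟩
  have hndν : Nondeg G q ν := by
    intro L h1 h2 h3 h4
    rw [hmass, div_eq_iff hm0.ne'] at h4
    exact hnd L ⟨h1, h2, h3⟩ h4
  have hfin : Finite (ZZ G q ν) := finite_ZZ hq0 hndν
  have htop : ¬ ContractibleSpace (CC G q ν) → Solvable G q μ := fun h =>
    hsolve (exists_top hneg hq ν hνG hndν h)
  have hcone : ContractibleSpace (CC G q ν) ↔ ContractibleSpace (heavyCone G q μ) := by
    let cone : (Submodule ℝ (Eu n) → Prop) → Prop := fun P => ContractibleSpace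
      ↥({x | (∀ Z, 0 ≤ x Z) ∧ (∃ Z, 0 < x Z) ∧ ∃ L : Sub n, Proper L ∧ ∀ Z, 0 < x Z → Le Z.1 L} :
        Set ({Z : Submodule ℝ (Eu n) // P Z} → ℝ))
    have h0 : CC G q ν = {x | (∀ Z, 0 ≤ x Z) ∧ (∃ Z, 0 < x Z) ∧
        ∃ L : Sub n, Proper L ∧ ∀ Z, 0 < x Z → Le Z.1 L} := by
      ext x
      refine and_congr_right fun _ => and_congr_right fun _ => ⟨fun h => ?_, ?_⟩
      · exact ⟨_, h, fun Z hZ => le_spn hZ⟩
      · rintro ⟨L, hL, h⟩ hcon
        exact hL (top_le_iff.1 (hcon ▸ spn_le fun Z hZ => h Z hZ))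
    have h1 : ContractibleSpace (CC G q ν) ↔ cone (MinHeavy G q ν) := by
      rw [h0]
    have h2 : ContractibleSpace (heavyCone G q μ) ↔ cone (IsMinHeavy G q μ) := Iff.rfl
    rw [h1, h2, hMin]
  refine ⟨fun h => htop fun hc => h (hcone.1 hc), ?_, ?_⟩
  · rintro ⟨A, B, hAB, ⟨Z, hZ⟩, ⟨W, hW⟩, hsp⟩
    have hAB' : ∀ Z, MinHeavy G q ν Z ↔ Z ∈ A ∨ Z ∈ B := fun Z => by rw [hMin]; exact hAB Z
    refine htop (not_contractible_split (fun Z => (hAB' Z.1).1 Z.2)
      ⟨⟨Z, (hAB' Z).2 (Or.inl hZ)⟩, hZ⟩ ⟨⟨W, (hAB' W).2 (Or.inr hW)⟩, hW⟩ fun Z hZ W hW => ?_)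
    by_contra hcon
    exact hsp Z W (Z ⊔ W) hZ hW le_sup_left le_sup_right hcon
  · rintro ⟨m, V, hV, hint⟩
    have hind : iSupIndep V := hint.submodule_iSupIndep
    have hVtop : ⨆ i, V i = ⊤ := hint.submodule_iSup_eq_top
    refine htop (not_contractible_direct (fun i => ?_) (fun i W hW hle => ?_) hind hVtop)
    · rw [hHeavy]
      exact (hV i).1
    · by_cases hb : W = ⊥
      · exact Or.inl hb
      · refine Or.inr ((hV i).2 W ⟨hW, hb, fun ht => ?_⟩ hle)
        exact (hV i).1.1.2.2 (top_le_iff.1 (ht ▸ hle))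

end Pool.Agent.Results.MP_b0d2bf_gt.HeavyComplex
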