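import Mathlib
import Pool.Agent.Lib.MP_b0d2bf_gt.ZMain
import Pool.Agent.Results.MP_b0d2bf_gt.HeavyComplex

set_option autoImplicit false

/-!
The Henk-Pollehn inequality for all `q > n` and its consequences for the even dual Minkowski
problem.
-/

namespace Pool.Agent.Results.MP_b0d2bf_gt.HenkPollehnAllQ

open MeasureTheory Metric Set Pool.Agent.Lib.MP_b0d2bf_gt
  Pool.Agent.Results.MP_b0d2bf_gt.HeavyComplex

variable {n : ℕ}

/-- the trace `L ∩ S` of a linear subspace on the unit sphere -/
def trace (L : Sub n) : Set (Sph n) := {v | (v : Eu n) ∈ L}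

/-- the Henk-Pollehn constant `(q - n + dim L) / q` -/
noncomputable def hpConst (q : ℝ) (L : Sub n) : ℝ := (q - n + Module.finrank ℝ L) / q

/-- the Henk-Pollehn inequality for the measure `μ` and all proper subspaces -/
def HP (q : ℝ) (μ : Msr n) : Prop :=
  ∀ L : Sub n, Proper L → massOf μ L < hpConst q L * μ.real univ

/-- `μ` is the `q`-th dual curvature measure of an origin-symmetric convex body -/
def HasBody (q : ℝ) (μ : Msr n) : Prop := ∃ K : Set (Eu n), HasDualCurv q K μ

/-- `ℝⁿ` is the direct sum of the nonzero `G`-invariant subspaces `V i`, the measure `μ` is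
concentrated on their union, and the `G`-invariant subspaces between `0` and some `V i`
are light -/
structure LightSum (G : Grp n) (q : ℝ) (μ : Msr n) {m : ℕ} (V : Fin m → Sub n) : Prop where
  inv : ∀ i, IsInv G (V i : Set (Eu n))
  ne_bot : ∀ i, V i ≠ ⊥
  direct : DirectSum.IsInternal V
  conc : μ {v : Sph n | ∀ i, (v : Eu n) ∉ V i} = 0
  light : ∀ i, ∀ W : Sub n, IsInvSub G W → Le W (V i) → W ≠ V i → massOf μ W < critMass q μ W

lemma trace_measurable (L : Sub n) : MeasurableSet (trace L) :=
  Pool.Agent.Lib.MP_b0d2bf_gt.HP.measurableSet_trace L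

section
variable {G : Grp n} {q : ℝ} {μ : Msr n} {m : ℕ} {V : Fin m → Sub n}

lemma finrank_compl (h : LightSum G q μ V) (i : Fin m) :
    Module.finrank ℝ (V i) + Module.finrank ℝ (⨆ (j) (_ : j ≠ i), V j : Sub n) = n := by
  have hind := h.direct.submodule_iSupIndep
  have htop := h.direct.submodule_iSup_eq_top
  have hc : IsCompl (V i) (⨆ (j) (_ : j ≠ i), V j) := by
    refine ⟨hind i, ?_⟩
    rw [codisjoint_iff, eq_top_iff, ← htop]
    refine iSup_le fun j => ?_
    by_cases hj : j = i
    · subst hj
      exact le_sup_left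
    · exact le_sup_of_le_right (le_iSup₂_of_le j hj le_rfl)
  rw [Submodule.finrank_add_eq_of_isCompl hc, finrank_euclideanSpace_fin]

lemma sum_finrank_le {W : Fin m → Sub n} (hW : iSupIndep W) {Z : Sub n} (hZ : ∀ i, W i ≤ Z) :
    ∑ i, Module.finrank ℝ (W i) ≤ Module.finrank ℝ Z := by
  classical
  have h1 : Module.finrank ℝ (DirectSum (Fin m) fun i => W i) = ∑ i, Module.finrank ℝ (W i) :=
    Module.finrank_directSum (R := ℝ) (fun i => W i)
  rw [← h1]
  have hinj : Function.Injective (DirectSum.coeLinearMap W) := hW.dfinsupp_lsum_injective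
  have h2 : LinearMap.range (DirectSum.coeLinearMap W) ≤ Z := by
    rw [DirectSum.range_coeLinearMap]
    exact iSup_le hZ
  calc Module.finrank ℝ (DirectSum (Fin m) fun i => W i)
      = Module.finrank ℝ (LinearMap.range (DirectSum.coeLinearMap W)) :=
        (LinearMap.finrank_range_of_inj hinj).symm
    _ ≤ Module.finrank ℝ Z := Submodule.finrank_mono h2

/-- the measure of a subspace is the sum of the measures of its traces on the summands -/
lemma mass_le [IsFiniteMeasure μ] (h : LightSum G q μ V) (Z : Sub n) :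
    massOf μ Z ≤ ∑ i, massOf μ (Z ⊓ V i) := by
  have hsub : trace Z ⊆ (⋃ i, trace (Z ⊓ V i)) ∪ {v : Sph n | ∀ i, (v : Eu n) ∉ V i} := by
    intro v hv
    by_cases hc : ∃ i, (v : Eu n) ∈ V i
    · obtain ⟨i, hi⟩ := hc
      exact Or.inl (mem_iUnion.2 ⟨i, hv, hi⟩)
    · exact Or.inr fun i hi => hc ⟨i, hi⟩
  calc massOf μ Z = μ.real (trace Z) := rfl
    _ ≤ μ.real ((⋃ i, trace (Z ⊓ V i)) ∪ {v : Sph n | ∀ i, (v : Eu n) ∉ V i}) :=
        measureReal_mono hsub
    _ ≤ μ.real (⋃ i, trace (Z ⊓ V i)) + μ.real {v : Sph n | ∀ i, (v : Eu n) ∉ V i} :=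
        measureReal_union_le _ _
    _ = μ.real (⋃ i, trace (Z ⊓ V i)) := by
        have : μ.real {v : Sph n | ∀ i, (v : Eu n) ∉ V i} = 0 := by
          unfold Measure.real
          rw [h.conc, ENNReal.toReal_zero]
        rw [this, add_zero]
    _ ≤ ∑ i, μ.real (trace (Z ⊓ V i)) := measureReal_iUnion_fintype_le _

/-- the Henk-Pollehn inequality implies that all summands are heavy -/
lemma heavy_of_HP [IsFiniteMeasure μ] (hq : 0 < q) (h : LightSum G q μ V) (hHP : HP q μ)
    (i : Fin m) : critMass q μ (V i) < massOf μ (V i) := by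
  have hfr := finrank_compl h i
  set L : Sub n := ⨆ (j) (_ : j ≠ i), V j with hL
  have hproper : Proper L := by
    intro ht
    have h1 : Module.finrank ℝ L = n := by rw [ht, finrank_top, finrank_euclideanSpace_fin]
    have h2 : 0 < Module.finrank ℝ (V i) := Submodule.one_le_finrank_iff.2 (h.ne_bot i)
    omega
  have h1 := hHP L hproper
  have h2 : μ.real univ ≤ massOf μ (V i) + massOf μ L := by
    have hsub : (univ : Set (Sph n)) ⊆
        (trace (V i) ∪ trace L) ∪ {v : Sph n | ∀ i, (v : Eu n) ∉ V i} := by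
      intro v _
      by_cases hc : ∃ j, (v : Eu n) ∈ V j
      · obtain ⟨j, hj⟩ := hc
        left
        by_cases hji : j = i
        · subst hji
          exact Or.inl hj
        · have h3 : V j ≤ L := le_iSup₂_of_le j hji le_rfl
          exact Or.inr (h3 hj)
      · exact Or.inr fun i hi => hc ⟨i, hi⟩
    have h0 : μ.real {v : Sph n | ∀ i, (v : Eu n) ∉ V i} = 0 := by
      unfold Measure.real
      rw [h.conc, ENNReal.toReal_zero]
    calc μ.real univ ≤ μ.real ((trace (V i) ∪ trace L) ∪ {v : Sph n | ∀ i, (v : Eu n) ∉ V i}) :=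
          measureReal_mono hsub
      _ ≤ μ.real (trace (V i) ∪ trace L) + μ.real {v : Sph n | ∀ i, (v : Eu n) ∉ V i} :=
          measureReal_union_le _ _
      _ = μ.real (trace (V i) ∪ trace L) := by rw [h0, add_zero]
      _ ≤ μ.real (trace (V i)) + μ.real (trace L) := measureReal_union_le _ _
  have h3 : hpConst q L = 1 - Module.finrank ℝ (V i) / q := by
    have h4 : (Module.finrank ℝ (V i) : ℝ) + Module.finrank ℝ L = n := by exact_mod_cast hfr
    unfold hpConst
    field_simp
    linarith
  rw [h3, sub_mul, one_mul] at h1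
  unfold critMass
  linarith

/-- the minimal heavy subspaces are the summands -/
lemma minHeavy_iff [IsFiniteMeasure μ] (hq : 0 < q) (h : LightSum G q μ V)
    (hm : 2 ≤ m) (hV : ∀ i, critMass q μ (V i) < massOf μ (V i)) (Z : Sub n) :
    IsMinHeavy G q μ Z ↔ ∃ i, Z = V i := by
  have hind := h.direct.submodule_iSupIndep
  have hproper : ∀ i, Proper (V i) := by
    intro i ht
    have hfr := finrank_compl h i
    rw [ht, finrank_top, finrank_euclideanSpace_fin] at hfr
    obtain ⟨j, hj⟩ : ∃ j : Fin m, j ≠ i := by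
      by_cases hi : i = ⟨0, by omega⟩
      · exact ⟨⟨1, by omega⟩, by rw [hi]; simp [Fin.ext_iff]⟩
      · exact ⟨⟨0, by omega⟩, fun h => hi h.symm⟩
    have h1 : Module.finrank ℝ (V j) ≤ Module.finrank ℝ (⨆ (j) (_ : j ≠ i), V j : Sub n) :=
      Submodule.finrank_mono (le_iSup₂_of_le j hj le_rfl)
    have h2 : 0 < Module.finrank ℝ (V j) := Submodule.one_le_finrank_iff.2 (h.ne_bot j)
    omega
  have hheavy : ∀ i, IsHeavy G q μ (V i) := fun i =>
    ⟨⟨h.inv i, h.ne_bot i, hproper i⟩, hV i⟩
  constructor
  · rintro ⟨hZ, hmin⟩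
    by_cases hex : ∃ i, V i ≤ Z
    · obtain ⟨i, hi⟩ := hex
      exact ⟨i, (hmin (V i) (hheavy i) hi).symm⟩
    · exfalso
      push Not at hex
      have h1 : massOf μ Z ≤ ∑ i, critMass q μ (Z ⊓ V i) := by
        refine (mass_le h Z).trans (Finset.sum_le_sum fun i _ => ?_)
        by_cases hb : Z ⊓ V i = ⊥
        · rw [hb]
          have h2 : massOf μ (⊥ : Sub n) = 0 := by
            have h3 : {v : Sph n | (v : Eu n) ∈ (⊥ : Sub n)} = ∅ := by
              ext v
              simp only [Submodule.mem_bot, mem_ofPred_eq, mem_empty_iff_false, iff_false]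
              exact sph_ne_zero v
            unfold massOf
            rw [h3, measureReal_empty]
          rw [h2]
          unfold critMass
          rw [finrank_bot, Nat.cast_zero, zero_div, zero_mul]
        · refine (h.light i _ ⟨?_, hb, ?_⟩ inf_le_right ?_).le
          · intro g hg x hx
            exact ⟨hZ.1.1 g hg x hx.1, h.inv i g hg x hx.2⟩
          · intro ht
            exact hproper i (top_le_iff.1 (ht ▸ inf_le_right))
          · intro he
            exact hex i (he ▸ inf_le_left)
      have h2 : ∑ i, critMass q μ (Z ⊓ V i) ≤ critMass q μ Z := by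
        unfold critMass
        rw [← Finset.sum_mul, ← Finset.sum_div]
        refine mul_le_mul_of_nonneg_right ?_ measureReal_nonneg
        refine div_le_div_of_nonneg_right ?_ hq.le
        have h3 : iSupIndep fun i => Z ⊓ V i := hind.mono fun i => inf_le_right
        have h4 := sum_finrank_le h3 (Z := Z) fun i => inf_le_left
        exact_mod_cast h4
      exact absurd hZ.2 (not_lt.2 (h1.trans h2))
  · rintro ⟨i, rfl⟩
    refine ⟨hheavy i, fun W hW hle => ?_⟩
    by_contra hne
    exact absurd hW.2 (not_lt.2 (h.light i W hW.1 hle hne).le)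

/-- the complex of minimal heavy subspaces is the boundary of a simplex -/
lemma not_contractible [IsFiniteMeasure μ] (hq : 0 < q) (h : LightSum G q μ V)
    (hm : 2 ≤ m) (hV : ∀ i, critMass q μ (V i) < massOf μ (V i)) :
    ¬ ContractibleSpace (heavyCone G q μ) := by
  classical
  have hiff := minHeavy_iff hq h hm hV
  have hind := h.direct.submodule_iSupIndep
  have htop := h.direct.submodule_iSup_eq_top
  have hinj : Function.Injective V := by
    intro i j hij
    by_contra hne
    have h1 := hind i
    have h2 : V i ≤ ⨆ (k) (_ : k ≠ i), V k := by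
      nth_rewrite 1 [hij]
      exact le_iSup₂_of_le j (Ne.symm hne) le_rfl
    exact h.ne_bot i (le_bot_iff.1 (h1 le_rfl h2))
  let z : Fin m → {Z : Sub n // IsMinHeavy G q μ Z} := fun i => ⟨V i, (hiff _).2 ⟨i, rfl⟩⟩
  have hz : ∀ Z : {Z : Sub n // IsMinHeavy G q μ Z}, ∃ i, Z = z i := by
    rintro ⟨Z, hZ⟩
    obtain ⟨i, hi⟩ := (hiff Z).1 hZ
    exact ⟨i, Subtype.ext hi⟩
  choose c hc using hz
  have hcz : ∀ i, c (z i) = i := fun i => by
    have h1 := congrArg Subtype.val (hc (z i))
    exact (hinj h1).symm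
  intro hcon
  let S : Type := {y : Fin m → ℝ // (∀ i, 0 ≤ y i) ∧ y ≠ 0 ∧ ∃ i, y i = 0}
  have hS : ContractibleSpace S := by
    refine contractible_of_retract (X := heavyCone G q μ)
      ⟨fun y => ⟨fun Z => y.1 (c Z), ?_⟩, ?_⟩ ⟨fun x => ⟨fun i => x.1 (z i), ?_⟩, ?_⟩ ?_
    · obtain ⟨y, hy1, hy2, i, hi⟩ := y
      refine ⟨fun Z => hy1 _, ?_, ⨆ (j) (_ : j ≠ i), V j, ?_, fun Z hZ => ?_⟩
      · obtain ⟨j, hj⟩ := Function.ne_iff.1 hy2
        exact ⟨z j, by
          show 0 < y (c (z j))
          rw [hcz]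
          exact lt_of_le_of_ne (hy1 j) (Ne.symm hj)⟩
      · intro ht
        have h1 := hind i
        rw [ht] at h1
        exact h.ne_bot i (le_bot_iff.1 (h1 le_rfl le_top))
      · have h1 : c Z ≠ i := by
          intro hci
          have h2 : 0 < y (c Z) := hZ
          rw [hci, hi] at h2
          exact lt_irrefl _ h2
        have h2 : Z.1 = V (c Z) := congrArg Subtype.val (hc Z)
        show Z.1 ≤ _
        rw [h2]
        exact le_iSup₂_of_le (c Z) h1 le_rfl
    · have h1 : Continuous fun y : S => y.1 := continuous_subtype_val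
      exact Continuous.subtype_mk (continuous_pi fun Z => continuous_pi_iff.1 h1 (c Z)) _
    · obtain ⟨x, hx1, ⟨Z, hZ⟩, L, hL, hx3⟩ := x
      refine ⟨fun i => hx1 _, ?_, ?_⟩
      · intro h0
        have h1 : x (z (c Z)) = 0 := congrFun h0 (c Z)
        rw [← hc Z] at h1
        rw [h1] at hZ
        exact lt_irrefl _ hZ
      · by_contra hno
        push Not at hno
        apply hL
        rw [eq_top_iff, ← htop]
        refine iSup_le fun i => hx3 (z i) ?_
        exact lt_of_le_of_ne (hx1 (z i)) (Ne.symm (hno i))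
    · have h1 : Continuous fun x : heavyCone G q μ => x.1 := continuous_subtype_val
      exact Continuous.subtype_mk (continuous_pi fun i => continuous_pi_iff.1 h1 (z i)) _
    · rintro ⟨y, hy⟩
      apply Subtype.ext
      funext i
      show y (c (z i)) = y i
      rw [hcz]
  exact Pool.Agent.Lib.Brouwer.not_contractible_orthant (Fin m) hS

/-- sufficiency without critical subspaces -/
lemma solvable_noncritical (hn : 2 ≤ n) (hqn : (n : ℝ) < q) (hG : IsFiniteEven G)
    (hμ : IsInvMeasure G μ) (h : LightSum G q μ V) (hnc : NoCritical G q μ)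
    (hV : ∀ i, critMass q μ (V i) < massOf μ (V i)) : Solvable G q μ := by
  have hn' : (0:ℝ) < n := by exact_mod_cast (show 0 < n by omega)
  have hq : 0 < q := hn'.trans hqn
  have hfin := hμ.1
  have hres := HeavyComplex.result n hn q hqn G hG μ hμ
  by_cases hm : 2 ≤ m
  · exact (hres.2 hnc).1 (not_contractible hq h hm hV)
  · -- only one summand
    refine hres.1 fun L hL => ?_
    have hm1 : m = 1 := by
      by_contra hne
      have hm0 : m = 0 := by omega
      subst hm0
      have htop := h.direct.submodule_iSup_eq_top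
      rw [iSup_of_empty] at htop
      exact hL.2.2 (top_le_iff.1 (htop ▸ bot_le))
    subst hm1
    have htop := h.direct.submodule_iSup_eq_top
    have h1 : V 0 = ⊤ := by
      rw [← htop]
      exact le_antisymm (le_iSup V 0) (iSup_le fun i => by rw [Subsingleton.elim i 0])
    refine h.light 0 L hL ?_ ?_
    · show L ≤ V 0
      rw [h1]
      exact le_top
    · rw [h1]
      exact hL.2.2

lemma neg_mem_even (hG : IsFiniteEven G) (hμ : IsInvMeasure G μ) (ω : Set (Sph n))
    (hω : MeasurableSet ω) : μ {w | -w ∈ ω} = μ ω := by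
  have h1 := hμ.2.2 (LinearIsometryEquiv.neg ℝ) hG.2
  have h2 : actS (LinearIsometryEquiv.neg ℝ) = fun v : Sph n => -v := by
    funext v
    rfl
  have h3 : Measure.map (actS (LinearIsometryEquiv.neg ℝ)) μ ω = μ ω := by rw [h1]
  rw [h2, Measure.map_apply continuous_neg.measurable hω] at h3
  exact h3

/-- sufficiency for lines -/
lemma hasBody_lines (hn : 2 ≤ n) (hqn : (n : ℝ) < q) (hG : IsFiniteEven G)
    (hμ : IsInvMeasure G μ) (h : LightSum G q μ V) (hl : ∀ i, Module.finrank ℝ (V i) = 1)
    (hV : ∀ i, critMass q μ (V i) < massOf μ (V i)) : HasBody q μ := by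
  classical
  have : NeZero n := ⟨by omega⟩
  have hn' : (0:ℝ) < n := by exact_mod_cast (show 0 < n by omega)
  have hq : 0 < q := hn'.trans hqn
  have hfin := hμ.1
  have hind := h.direct.submodule_iSupIndep
  have htop := h.direct.submodule_iSup_eq_top
  -- the number of summands
  have hmn : m = n := by
    have h1 : Module.finrank ℝ (DirectSum (Fin m) fun i => V i) = m := by
      rw [Module.finrank_directSum (R := ℝ) (fun i => V i)]
      simp [hl]
    have h2 := (LinearEquiv.ofBijective (DirectSum.coeLinearMap V) h.direct).finrank_eq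
    rw [h1, finrank_euclideanSpace_fin] at h2
    exact h2
  subst hmn
  -- unit vectors
  have hex : ∀ i, ∃ v : Sph m, (v : Eu m) ∈ V i := fun i => by
    obtain ⟨x, hx, hx0⟩ := Submodule.exists_mem_ne_zero_of_ne_bot (h.ne_bot i)
    exact ⟨dirS x hx0, (V i).smul_mem _ hx⟩
  choose v hv using hex
  have hspan : ∀ i, ∀ x ∈ V i, ∃ c : ℝ, c • (v i : Eu m) = x := by
    intro i x hx
    obtain ⟨w, hw0, hw⟩ := finrank_eq_one_iff'.1 (hl i)
    obtain ⟨a, ha⟩ := hw ⟨v i, hv i⟩
    obtain ⟨b, hb⟩ := hw ⟨x, hx⟩
    have ha' : a • (w : Eu m) = v i := congrArg Subtype.val ha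
    have hb' : b • (w : Eu m) = x := congrArg Subtype.val hb
    have ha0 : a ≠ 0 := by
      rintro rfl
      rw [zero_smul] at ha'
      exact sph_ne_zero (v i) ha'.symm
    refine ⟨b / a, ?_⟩
    rw [← ha', smul_smul, div_mul_cancel₀ _ ha0, hb']
  have hlin : LinearIndependent ℝ fun i => (v i : Eu m) :=
    hind.linearIndependent V hv fun i => sph_ne_zero (v i)
  let b := basisOfLinearIndependentOfCardEqFinrank hlin (by
    rw [Fintype.card_fin, finrank_euclideanSpace_fin])
  have hb : ∀ i, b i = (v i : Eu m) := fun i => by simp [b]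
  -- points of the sphere on the lines
  have hpts : ∀ i, ∀ w : Sph m, (w : Eu m) ∈ V i → w = v i ∨ w = -v i := by
    intro i w hw
    obtain ⟨c, hc⟩ := hspan i _ hw
    have h1 : |c| = 1 := by
      have h2 := congrArg norm hc
      rwa [norm_smul, norm_sph, norm_sph, mul_one, Real.norm_eq_abs] at h2
    rcases eq_or_eq_neg_of_abs_eq h1 with rfl | rfl
    · left
      exact Subtype.ext (by rw [← hc, one_smul])
    · right
      exact Subtype.ext (by
        rw [← hc, neg_one_smul]
        rfl)
  have hpair : ∀ i, trace (V i) = {v i, -v i} := by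
    intro i
    ext w
    constructor
    · exact fun hw => hpts i w hw
    · rintro (rfl | rfl)
      · exact hv i
      · exact (V i).neg_mem (hv i)
  obtain ⟨K, hK, hKω⟩ := Pool.Agent.Lib.MP_b0d2bf_gt.HP.atoms_exist (μ := μ) hqn hb hμ.2.1
    (neg_mem_even hG hμ)
    (by
      refine measure_mono_null ?_ h.conc
      intro w hw i hwi
      rcases hpts i w hwi with h1 | h1
      · exact (hw i).1 h1
      · exact (hw i).2 h1)
    (fun i => by
      have h1 := hV i
      unfold critMass at h1
      rw [hl i, Nat.cast_one, one_div, inv_mul_eq_div] at h1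
      rw [← hpair i]
      exact h1)
  exact ⟨K, hK, hKω⟩

end

/-- the Henk-Pollehn inequality for represented measures -/
lemma HP_of_hasBody (hn : 2 ≤ n) {q : ℝ} (hq : (n : ℝ) < q) {μ : Msr n} [IsFiniteMeasure μ]
    (h : HasBody q μ) : HP q μ := by
  have : NeZero n := ⟨by omega⟩
  have hn' : (0:ℝ) < n := by exact_mod_cast (show 0 < n by omega)
  have hq0 : 0 < q := hn'.trans hq
  obtain ⟨K, hK, hKω⟩ := h
  intro L hL
  have h1 : dualCurv q K (trace L) < ENNReal.ofReal (hpConst q L) * dualCurv q K univ :=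
    Pool.Agent.Lib.MP_b0d2bf_gt.HP.hp_body hq hK hL
  rw [(hKω _ (trace_measurable L)).2, (hKω univ MeasurableSet.univ).2] at h1
  have h2 : 0 ≤ hpConst q L := by
    have : (0:ℝ) ≤ Module.finrank ℝ L := Nat.cast_nonneg _
    exact div_nonneg (by linarith) hq0.le
  have h3 : μ {v : Sph n | (v : Eu n) ∈ L} < ENNReal.ofReal (hpConst q L * μ.real univ) := by
    rw [ENNReal.ofReal_mul h2]
    unfold Measure.real
    rw [ENNReal.ofReal_toReal (measure_ne_top μ univ)]
    exact h1
  exact (ENNReal.lt_ofReal_iff_toReal_lt (measure_ne_top μ _)).1 h3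

/-- Let `n ≥ 2` and `q > n`.
(1) The Henk-Pollehn inequality holds for all origin-symmetric convex bodies and all proper
subspaces.
(2) Its constant is optimal: all values between `dim L / q` and the Henk-Pollehn constant occur
(for `L ≠ 0`).
(3) Let `G` be a finite group of linear isometries containing `-1` and let `μ` be a nonzero finite
`G`-invariant measure concentrated on the union of the members of a decomposition of the space into
`G`-invariant subspaces `V i`, such that the invariant subspaces between `0` and `V i` are light.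
Assume that all `V i` are lines or that there are no critical subspaces. Then `μ` is a dual
curvature measure if and only if it satisfies the Henk-Pollehn inequality, and if and only if all
`V i` are heavy. -/
theorem result : ∀ n : ℕ, 2 ≤ n → ∀ q : ℝ, (n : ℝ) < q →
    (∀ K : Set (Eu n), IsSymBody K → ∀ L : Sub n, Proper L →
      dualCurv q K (trace L) < ENNReal.ofReal (hpConst q L) * dualCurv q K univ) ∧
    (∀ L : Sub n, L ≠ ⊥ → Proper L → ∀ c : ℝ, Module.finrank ℝ L / q < c → c < hpConst q L →
      ∃ K : Set (Eu n), IsSymBody K ∧ dualCurv q K univ = 1 ∧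
        dualCurv q K (trace L) = ENNReal.ofReal c) ∧
    (∀ G : Grp n, IsFiniteEven G → ∀ μ : Msr n, IsInvMeasure G μ → ∀ (m : ℕ)
      (V : Fin m → Sub n), LightSum G q μ V →
      ((∀ i, Module.finrank ℝ (V i) = 1) ∨ NoCritical G q μ) →
        (HasBody q μ ↔ HP q μ) ∧ (HasBody q μ ↔ ∀ i, critMass q μ (V i) < massOf μ (V i))) := by
  intro n hn q hq
  have : NeZero n := ⟨by omega⟩
  have hn' : (0:ℝ) < n := by exact_mod_cast (show 0 < n by omega)
  have hq0 : 0 < q := hn'.trans hq
  refine ⟨fun K hK L hL => Pool.Agent.Lib.MP_b0d2bf_gt.HP.hp_body hq hK hL,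
    fun L hL0 hL c h1 h2 => Pool.Agent.Lib.MP_b0d2bf_gt.HP.exists_ratio hq hL0 hL h1 h2,
    fun G hG μ hμ m V hV hcase => ?_⟩
  have hfin := hμ.1
  have h1 : HasBody q μ → HP q μ := HP_of_hasBody hn hq
  have h2 : HP q μ → ∀ i, critMass q μ (V i) < massOf μ (V i) := fun h => heavy_of_HP hq0 hV h
  have h3 : (∀ i, critMass q μ (V i) < massOf μ (V i)) → HasBody q μ := by
    intro h
    rcases hcase with hl | hnc
    · exact hasBody_lines hn hq hG hμ hV hl h
    · obtain ⟨K, -, hK⟩ := solvable_noncritical hn hq hG hμ hV hnc h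
      exact ⟨K, hK⟩
  exact ⟨⟨h1, fun h => h3 (h2 h)⟩, ⟨fun h => h2 (h1 h), h3⟩⟩

end Pool.Agent.Results.MP_b0d2bf_gt.HenkPollehnAllQ
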