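import Mathlib
import Pool.Agent.Lib.MP_b0d2bf_gt.QCor
import Pool.Agent.Lib.MP_b0d2bf_gt.XScale

set_option autoImplicit false

/-!
The even dual Minkowski problem for large `q`: existence for every even measure which dominates a
multiple of the surface measure on an open set which meets every great subsphere, and more
generally for every even measure whose logarithmic potential has a suitable local minimum.
-/

namespace Pool.Agent.Results.MP_b0d2bf_gt.LargeQ

open MeasureTheory Metric Set Pool.Agent.Lib.MP_b0d2bf_gt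

/-- Borel measures on the unit sphere -/
abbrev Msr (n : ℕ) : Type := Measure (Sph n)

variable {n : ℕ}

/-- `μ` is a nonzero finite even Borel measure on the unit sphere -/
def IsEvenMeasure (μ : Msr n) : Prop :=
  IsFiniteMeasure μ ∧ μ ≠ 0 ∧
    ∀ ω : Set (Sph n), MeasurableSet ω → μ {v | -v ∈ ω} = μ ω

/-- `μ` is the `q`-th dual curvature measure of an origin-symmetric convex body (the inverse
radial Gauss images are null-measurable) -/
def IsDualCurv (q : ℝ) (μ : Msr n) : Prop :=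
  ∃ K : Set (Eu n), IsSymBody K ∧ ∀ ω : Set (Sph n), MeasurableSet ω →
    NullMeasurableSet (invGauss K ω) ((volume : Measure (Eu n)).toSphere) ∧
    dualCurv q K ω = μ ω

/-- the mass `μ(L ∩ S)` of a linear subspace -/
noncomputable def massOf (μ : Msr n) (L : Submodule ℝ (Eu n)) : ℝ := μ.real {v | (v : Eu n) ∈ L}

/-- no linear subspace other than `0` and the whole space has exactly the mass
`(dim L / q) μ(S)` -/
def NoCritical (q : ℝ) (μ : Msr n) : Prop :=
  ∀ L : Submodule ℝ (Eu n), L ≠ ⊥ → L ≠ ⊤ →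
    massOf μ L ≠ Module.finrank ℝ L / q * μ.real univ

/-- the logarithmic potential `v ↦ - ∫ log |⟨u, v⟩| dμ(u)`, with values in `[0, ∞]` -/
noncomputable def logPot (μ : Msr n) (v : Sph n) : ENNReal :=
  ∫⁻ u : Sph n, (if |inner ℝ (u : Eu n) (v : Eu n)| = 0 then ⊤
    else ENNReal.ofReal (-Real.log |inner ℝ (u : Eu n) (v : Eu n)|)) ∂μ

/-- `z` is a minimum of the potential over the closure of the open symmetric set `U` which contains
`z`, the potential is finite at `z`, its values on the frontier of `U` are larger (`U` may be the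
whole sphere), and `∫ ⟨u, w⟩ ^ 2 / ⟨u, z⟩ ^ 2 dμ(u) > μ(S)` for all unit vectors `w` orthogonal to
`z` -/
def GoodMin (μ : Msr n) (U : Set (Sph n)) (z : Sph n) : Prop :=
  IsOpen U ∧ (∀ v, v ∈ U → -v ∈ U) ∧ z ∈ U ∧ logPot μ z ≠ ⊤ ∧
    (∀ v ∈ closure U, logPot μ z ≤ logPot μ v) ∧ (∀ v ∈ frontier U, logPot μ z < logPot μ v) ∧
    ∀ w : Sph n, inner ℝ (w : Eu n) (z : Eu n) = (0 : ℝ) →
      μ univ < ∫⁻ u : Sph n, ENNReal.ofReal
        (inner ℝ (u : Eu n) (w : Eu n) ^ 2 / inner ℝ (u : Eu n) (z : Eu n) ^ 2) ∂μ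

/-- the open set `V` meets every great subsphere and `μ(A) ≥ c σ(A)` for all Borel subsets `A` of
`V`, where `σ` is the surface measure -/
def Dominates (μ : Msr n) (c : ℝ) (V : Set (Sph n)) : Prop :=
  IsOpen V ∧ (∀ z : Sph n, ∃ u ∈ V, inner ℝ (u : Eu n) (z : Eu n) = (0 : ℝ)) ∧
    ∀ A : Set (Sph n), MeasurableSet A → A ⊆ V →
      ENNReal.ofReal c * (volume : Measure (Eu n)).toSphere A ≤ μ A

/-- Let `n ≥ 2` and let `μ` be a nonzero finite even Borel measure on the unit sphere.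
(1) If `μ` has a good minimum then there is `q₀` such that `μ` is a `q`-th dual curvature measure
for all `q ≥ q₀` for which there are no critical subspaces.
(2) The same holds if `μ ≥ c σ` (`c > 0`) on an open set which meets every great subsphere, in
particular if `μ ≥ c σ` on the whole sphere.
(3) If moreover the masses of the proper subspaces are zero or at least `ε > 0` then `μ` is a
`q`-th dual curvature measure for all `q ≥ q₀`. -/
theorem result : ∀ n : ℕ, 2 ≤ n → ∀ μ : Msr n, IsEvenMeasure μ →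
    (∀ (U : Set (Sph n)) (z : Sph n), GoodMin μ U z →
      ∃ q₀ : ℝ, ∀ q : ℝ, q₀ ≤ q → NoCritical q μ → IsDualCurv q μ) ∧
    (∀ (c : ℝ) (V : Set (Sph n)), 0 < c → Dominates μ c V →
      (∃ q₀ : ℝ, ∀ q : ℝ, q₀ ≤ q → NoCritical q μ → IsDualCurv q μ) ∧
      ∀ ε : ℝ, 0 < ε → (∀ L : Submodule ℝ (Eu n), L ≠ ⊤ → massOf μ L = 0 ∨ ε ≤ massOf μ L) →
        ∃ q₀ : ℝ, ∀ q : ℝ, q₀ ≤ q → IsDualCurv q μ) := by
  rintro n hn μ ⟨hμf, hμ0, hμe⟩
  have : NeZero n := ⟨by omega⟩
  have huniv : μ univ ≠ 0 := fun h => hμ0 (Measure.measure_univ_eq_zero.1 h)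
  have hutop : μ univ ≠ ⊤ := measure_ne_top _ _
  have hm0 : 0 < μ.real univ := ENNReal.toReal_pos huniv hutop
  have hν : IsProbabilityMeasure ((μ univ)⁻¹ • μ) := by
    constructor
    rw [Measure.smul_apply, smul_eq_mul, ENNReal.inv_mul_cancel huniv hutop]
  obtain ⟨ν, hνdef⟩ : ∃ ν : Measure (Sph n), ν = (μ univ)⁻¹ • μ := ⟨_, rfl⟩
  rw [← hνdef] at hν
  have hνG : MInv (pm n) ν := by
    refine MInv_pm fun ω hω => ?_
    rw [hνdef, Measure.smul_apply, Measure.smul_apply, hμe ω hω]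
  have hmass : ∀ L : Submodule ℝ (Eu n), mass ν L = massOf μ L / μ.real univ := by
    intro L
    show ν.real _ = _
    rw [hνdef, measureReal_ennreal_smul_apply, ENNReal.toReal_inv, div_eq_inv_mul]
    rfl
  have hnd : ∀ q : ℝ, NoCritical q μ → Nondeg (pm n) q ν := by
    intro q h L _ h2 h3 h4
    rw [hmass, div_eq_iff hm0.ne'] at h4
    exact h L h2 h3 h4
  have hsolve : ∀ q : ℝ, (n : ℝ) < q →
      (∃ g : Sph n → ℝ, Bd (pm n) g ∧ MM q g = ENNReal.ofReal (II q g) • ν) → IsDualCurv q μ := by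
    rintro q hq ⟨g, hB, hM⟩
    rw [hνdef] at hM
    obtain ⟨K, h1, h2, h3⟩ := body_of_MM hq μ hμ0 hB hM
    exact ⟨K, h1, h3⟩
  have hlift : (∃ q0 : ℝ, ∀ q : ℝ, q0 ≤ q → Nondeg (pm n) q ν →
      ∃ g : Sph n → ℝ, Bd (pm n) g ∧ MM q g = ENNReal.ofReal (II q g) • ν) →
      ∃ q₀ : ℝ, ∀ q : ℝ, q₀ ≤ q → NoCritical q μ → IsDualCurv q μ := by
    rintro ⟨q0, h⟩
    refine ⟨max q0 (n + 1), fun q hq hc => hsolve q ?_ (h q ((le_max_left _ _).trans hq)
      (hnd q hc))⟩
    have := (le_max_right q0 ((n : ℝ) + 1)).trans hq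
    linarith
  have hinv0 : (μ univ)⁻¹ ≠ 0 := ENNReal.inv_ne_zero.2 hutop
  have hinvt : (μ univ)⁻¹ ≠ ⊤ := ENNReal.inv_ne_top.2 huniv
  have hpot : ∀ v : Sph n, pot ν v = (μ univ)⁻¹ * logPot μ v := by
    intro v
    unfold pot logPot
    rw [hνdef, lintegral_smul_measure, smul_eq_mul]
    rfl
  refine ⟨?_, ?_⟩
  · rintro U z ⟨hU, hUs, hz, hfin, hmin, hfr, hsec⟩
    refine hlift (exists_large_even hn ν hνG hU hUs hz ?_ ?_ ?_ ?_)
    · rw [hpot]
      exact ENNReal.mul_ne_top hinvt hfin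
    · intro v hv
      rw [hpot, hpot]
      exact mul_le_mul_right (hmin v hv) _
    · intro v hv
      rw [hpot, hpot]
      exact (ENNReal.mul_lt_mul_iff_right hinv0 hinvt).2 (hfr v hv)
    · intro w hw
      rw [hνdef, lintegral_smul_measure, smul_eq_mul, ← ENNReal.inv_mul_cancel huniv hutop]
      exact (ENNReal.mul_lt_mul_iff_right hinv0 hinvt).2 (hsec w hw)
  · rintro c V hc ⟨hV, hmeet, hdom⟩
    have hA : ∃ q₀ : ℝ, ∀ q : ℝ, q₀ ≤ q → NoCritical q μ → IsDualCurv q μ := by
      refine hlift (exists_large_lower hn ν hνG hV (c := (μ univ)⁻¹.toReal * c) ?_ hmeet ?_)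
      · exact mul_pos (ENNReal.toReal_pos hinv0 hinvt) hc
      · intro A hA hAV
        rw [ENNReal.ofReal_mul ENNReal.toReal_nonneg, ENNReal.ofReal_toReal hinvt, hνdef,
          Measure.smul_apply, smul_eq_mul, mul_assoc]
        exact mul_le_mul_right (hdom A hA hAV) _
    refine ⟨hA, fun ε hε hL => ?_⟩
    obtain ⟨q₀, h⟩ := hA
    refine ⟨max q₀ (max 1 (n * μ.real univ / ε + 1)), fun q hq => h q ((le_max_left _ _).trans hq)
      ?_⟩
    have hq1 : 1 ≤ q := ((le_max_left _ _).trans (le_max_right _ _)).trans hq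
    have hq2 : n * μ.real univ / ε + 1 ≤ q := ((le_max_right _ _).trans (le_max_right _ _)).trans hq
    have hq0 : 0 < q := by linarith
    intro L hb ht heq
    have hd1 : (0 : ℝ) < Module.finrank ℝ L := by
      have : 0 < Module.finrank ℝ L := by
        rw [Module.finrank_pos_iff]
        exact Submodule.nontrivial_iff_ne_bot.2 hb
      exact_mod_cast this
    have hd2 : (Module.finrank ℝ L : ℝ) ≤ n := by
      have h1 := Submodule.finrank_le L
      rw [finrank_euclideanSpace_fin] at h1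
      exact_mod_cast h1
    have hpos : 0 < (Module.finrank ℝ L : ℝ) / q * μ.real univ := by positivity
    rcases hL L ht with h1 | h1
    · rw [h1] at heq
      linarith
    · rw [heq, div_mul_eq_mul_div, le_div_iff₀ hq0] at h1
      have h2 : n * μ.real univ / ε < q := by linarith
      rw [div_lt_iff₀ hε] at h2
      have h3 : (Module.finrank ℝ L : ℝ) * μ.real univ ≤ n * μ.real univ :=
        mul_le_mul_of_nonneg_right hd2 hm0.le
      linarith

end Pool.Agent.Results.MP_b0d2bf_gt.LargeQ
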