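import Mathlib
import Pool.Agent.Lib.MP_b0d2bf_gt.Main2
import Pool.Agent.Lib.MP_b0d2bf_gt.Defs2

set_option autoImplicit false

/-!
The even dual Minkowski problem for `q > n`: no condition on the masses of the linear subspaces
is both necessary and sufficient; the Henk-Pollehn inequality is not sufficient.
-/

namespace Pool.Agent.Results.MP_b0d2bf_gt.NoSubspaceMassCriterion

open MeasureTheory Metric Set Pool.Agent.Lib.MP_b0d2bf_gt

/-- For every `n ≥ 2` and every `q > n` there are two nonzero finite even Borel measures on the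
unit sphere which give the same mass to every linear subspace and satisfy
`μ(L ∩ S) < ((q - n + dim L) / q) μ(S)` for every proper linear subspace `L`, and of which one is
the `q`-th dual curvature measure of an origin-symmetric convex body and the other one is not. -/
theorem result : ∀ n : ℕ, 2 ≤ n → ∀ q : ℝ, (n : ℝ) < q →
    ∃ μ₁ μ₂ : Measure (Sph n), IsEvenData μ₁ ∧ IsEvenData μ₂ ∧
      (∀ L : Submodule ℝ (Eu n), subMass μ₁ L = subMass μ₂ L) ∧
      HenkPollehn q μ₁ ∧ HenkPollehn q μ₂ ∧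
      (∃ K : Set (Eu n), IsSymBody K ∧ MeasGauss K ∧ Represents q K μ₁) ∧
      ¬ ∃ K : Set (Eu n), IsSymBody K ∧ Represents q K μ₂ := by
  intro n hn q hq
  obtain ⟨m, rfl⟩ : ∃ m, n = m + 2 := ⟨n - 2, by omega⟩
  obtain ⟨μ₁, μ₂, h1, h2, h3, h4, h5, h6, h7, h8, ⟨K, hK, hK2⟩, h10⟩ := main2 hq
  have h8' : HenkPollehn q μ₂ := h8
  have huniv : μ₁ univ = μ₂ univ := by
    have e1 := h7 ⊤
    have e2 : {v : Sph (m + 2) | (v : Eu (m + 2)) ∈ (⊤ : Submodule ℝ (Eu (m + 2)))} = univ := by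
      ext v; simp
    rwa [e2] at e1
  refine ⟨μ₁, μ₂, ⟨h1, h3, h5⟩, ⟨h2, h4, h6⟩, h7, fun L hL => ?_, h8',
    ⟨K, hK, fun ω hω => (hK2 ω hω).1, fun ω hω => (hK2 ω hω).2⟩, h10⟩
  have e1 := h8' L hL
  have e2 : subMass μ₁ L = subMass μ₂ L := h7 L
  rw [Measure.real, huniv, e2]
  exact e1

end Pool.Agent.Results.MP_b0d2bf_gt.NoSubspaceMassCriterion
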